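import Pool.Agent.Y34.HB.Stm

set_option autoImplicit false

/-!
# Points dividing a segment, and the flat slab between two parallel flats
-/

universe u

open Metric Set Filter Topology
open Pool.Agent.TH60.FP Pool.Agent.Y34.HB

namespace Pool.Agent.Y155.HB

section CNL

variable {X : Type u} [MetricSpace X]

/-- `m` divides the segment from `p` to `q` in the ratio `l : 1 - l` -/
def Dv (p q : X) (l : ℝ) (m : X) : Prop := ∀ x : X,
  dist x m ^ 2 ≤ (1 - l) * dist x p ^ 2 + l * dist x q ^ 2 - l * (1 - l) * dist p q ^ 2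

theorem Dv.left {p q : X} {l : ℝ} {m : X} (h : Dv p q l m) (h0 : 0 ≤ l) :
    dist p m ≤ l * dist p q := by
  refine (pow_le_pow_iff_left₀ dist_nonneg (mul_nonneg h0 dist_nonneg) two_ne_zero).1 ?_
  have h1 := h p
  rw [dist_self] at h1
  calc dist p m ^ 2 ≤ _ := h1
    _ = (l * dist p q) ^ 2 := by ring

theorem Dv.right {p q : X} {l : ℝ} {m : X} (h : Dv p q l m) (h1 : l ≤ 1) :
    dist m q ≤ (1 - l) * dist p q := by
  refine (pow_le_pow_iff_left₀ dist_nonneg (mul_nonneg (by linarith) dist_nonneg)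
    two_ne_zero).1 ?_
  have h2 := h q
  rw [dist_self, dist_comm q p] at h2
  rw [dist_comm m q]
  calc dist q m ^ 2 ≤ _ := h2
    _ = ((1 - l) * dist p q) ^ 2 := by ring

theorem Dv.mid (hX : CN X) {p q : X} {l r : ℝ} {m m' : X} (h : Dv p q l m) (h' : Dv p q r m')
    (h0 : 0 ≤ l) (h1 : r ≤ 1) (hl : l ≤ r) : ∃ c, Dv p q ((l + r) / 2) c := by
  obtain ⟨c, hc⟩ := hX m m'
  refine ⟨c, fun x => ?_⟩
  have e1 := h.left h0
  have e2 := h'.right h1
  have e3 : (r - l) * dist p q ≤ dist m m' := by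
    have := dist_triangle4 p m m' q
    nlinarith
  have e4 : ((r - l) * dist p q) ^ 2 ≤ dist m m' ^ 2 :=
    pow_le_pow_left₀ (mul_nonneg (by linarith) dist_nonneg) e3 2
  have e5 := hc x
  have e6 := h x
  have e7 := h' x
  have e8 : (1 - (l + r) / 2) * dist x p ^ 2 + (l + r) / 2 * dist x q ^ 2 -
      (l + r) / 2 * (1 - (l + r) / 2) * dist p q ^ 2 =
      (((1 - l) * dist x p ^ 2 + l * dist x q ^ 2 - l * (1 - l) * dist p q ^ 2) +
        ((1 - r) * dist x p ^ 2 + r * dist x q ^ 2 - r * (1 - r) * dist p q ^ 2)) / 2 -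
        ((r - l) * dist p q) ^ 2 / 4 := by ring
  rw [e8]
  linarith

theorem dv_dyadic (hX : CN X) (p q : X) : ∀ (n j : ℕ), j ≤ 2 ^ n →
    ∃ m, Dv p q ((j : ℝ) / 2 ^ n) m := by
  intro n
  induction n with
  | zero =>
    intro j hj
    rw [pow_zero] at hj
    rcases Nat.le_one_iff_eq_zero_or_eq_one.1 hj with rfl | rfl
    · exact ⟨p, fun x => by simp⟩
    · exact ⟨q, fun x => by simp⟩
  | succ n ih =>
    intro j hj
    rw [pow_succ] at hj
    rcases Nat.even_or_odd' j with ⟨i, rfl | rfl⟩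
    · obtain ⟨m, hm⟩ := ih i (by omega)
      refine ⟨m, ?_⟩
      have : (((2 * i : ℕ) : ℝ)) / 2 ^ (n + 1) = (i : ℝ) / 2 ^ n := by
        push_cast
        rw [pow_succ]
        field_simp
      rw [this]
      exact hm
    · obtain ⟨m, hm⟩ := ih i (by omega)
      obtain ⟨m', hm'⟩ := ih (i + 1) (by omega)
      have h2 : (0 : ℝ) < 2 ^ n := by positivity
      have h3 : ((i : ℝ) + 1) / 2 ^ n ≤ 1 := by
        rw [div_le_one h2]
        have : i + 1 ≤ 2 ^ n := by omega
        exact_mod_cast this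
      obtain ⟨c, hc⟩ := hm.mid hX hm' (by positivity) (by push_cast; exact h3)
        (by push_cast; gcongr; linarith)
      refine ⟨c, ?_⟩
      have : (((2 * i + 1 : ℕ) : ℝ)) / 2 ^ (n + 1) =
          ((i : ℝ) / 2 ^ n + ((i + 1 : ℕ) : ℝ) / 2 ^ n) / 2 := by
        push_cast
        rw [pow_succ]
        field_simp
        ring
      rw [this]
      exact hc

theorem dv_exists [ProperSpace X] (hX : CN X) (p q : X) (l : ℝ) (h0 : 0 ≤ l) (h1 : l ≤ 1) :
    ∃ m, Dv p q l m := by
  have hfl : ∀ n : ℕ, ⌊l * 2 ^ n⌋₊ ≤ 2 ^ n := by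
    intro n
    have h2 : (⌊l * 2 ^ n⌋₊ : ℝ) ≤ 2 ^ n := by
      refine (Nat.floor_le (by positivity)).trans ?_
      have : (0 : ℝ) < 2 ^ n := by positivity
      nlinarith
    exact_mod_cast h2
  choose m hm using fun n : ℕ => dv_dyadic hX p q n ⌊l * 2 ^ n⌋₊ (hfl n)
  have hl : Tendsto (fun n : ℕ => (⌊l * 2 ^ n⌋₊ : ℝ) / 2 ^ n) atTop (𝓝 l) :=
    (tendsto_nat_floor_mul_div_atTop h0).comp
      (tendsto_pow_atTop_atTop_of_one_lt (one_lt_two : (1 : ℝ) < 2))
  have hle : ∀ n : ℕ, (⌊l * 2 ^ n⌋₊ : ℝ) / 2 ^ n ≤ 1 := by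
    intro n
    rw [div_le_one (by positivity)]
    exact_mod_cast hfl n
  have hball : ∀ n, m n ∈ closedBall p (dist p q) := by
    intro n
    rw [mem_closedBall, dist_comm]
    refine ((hm n).left (by positivity)).trans ?_
    have := hle n
    have h3 : (0 : ℝ) ≤ dist p q := dist_nonneg
    nlinarith
  obtain ⟨c, -, φ, hφ, hc⟩ := (isCompact_closedBall p (dist p q)).tendsto_subseq hball
  refine ⟨c, fun x => ?_⟩
  have hlφ := hl.comp hφ.tendsto_atTop
  have t1 : Tendsto (fun n => dist x (m (φ n)) ^ 2) atTop (𝓝 (dist x c ^ 2)) :=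
    (tendsto_const_nhds.dist hc).pow 2
  have t2 : Tendsto (fun n => (1 - (⌊l * 2 ^ (φ n)⌋₊ : ℝ) / 2 ^ (φ n)) * dist x p ^ 2 +
      (⌊l * 2 ^ (φ n)⌋₊ : ℝ) / 2 ^ (φ n) * dist x q ^ 2 -
      (⌊l * 2 ^ (φ n)⌋₊ : ℝ) / 2 ^ (φ n) * (1 - (⌊l * 2 ^ (φ n)⌋₊ : ℝ) / 2 ^ (φ n)) *
        dist p q ^ 2) atTop
      (𝓝 ((1 - l) * dist x p ^ 2 + l * dist x q ^ 2 - l * (1 - l) * dist p q ^ 2)) :=
    (((tendsto_const_nhds.sub hlφ).mul_const _).add (hlφ.mul_const _)).sub
      ((hlφ.mul (tendsto_const_nhds.sub hlφ)).mul_const _)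
  exact le_of_tendsto_of_tendsto' t1 t2 fun n => hm (φ n) x

end CNL

theorem t1 : S_CNL.{u} := fun X _ _ hX p q l h0 h1 => dv_exists hX p q l h0 h1

theorem t2 (hC : S_CNL.{u}) : S_SLAB.{u} := by
  intro X _ _ hX k f h e d hf hh he hd hR
  have hcl : ∀ s : ℝ, 0 ≤ max 0 (min 1 (s / d)) ∧ max 0 (min 1 (s / d)) ≤ 1 := fun s =>
    ⟨le_max_left _ _, max_le zero_le_one (min_le_left _ _)⟩
  choose P hP using fun (z : E k) (s : ℝ) =>
    hC X hX (f z) (h (e z)) (max 0 (min 1 (s / d))) (hcl s).1 (hcl s).2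
  have hdd : ∀ z w, dist (f z) (h (e w)) ^ 2 = d ^ 2 + dist z w ^ 2 := hR.2
  have hff : ∀ z w, dist (f z) (f w) = dist z w := fun z w => hf.dist_eq z w
  have hhh : ∀ z w, dist (h (e z)) (h (e w)) = dist z w := fun z w => by
    rw [hh.dist_eq, he.dist_eq]
  -- the inequality without clamping
  have key : ∀ (z : E k) (s : ℝ), 0 ≤ s → s ≤ d → ∀ x : X, dist x (P z s) ^ 2 ≤
      (1 - s / d) * dist x (f z) ^ 2 + s / d * dist x (h (e z)) ^ 2 - s * (d - s) := by
    intro z s h0 h1 x
    have h2 := hP z s x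
    have h3 : max 0 (min 1 (s / d)) = s / d := by
      rw [min_eq_right ((div_le_one hd).2 h1), max_eq_right (by positivity)]
    rw [h3, hdd z z, dist_self] at h2
    have h4 : s / d * (1 - s / d) * (d ^ 2 + 0 ^ 2) = s * (d - s) := by
      field_simp
      ring
    rw [h4] at h2
    exact h2
  have u1 : ∀ z w t, 0 ≤ t → t ≤ d → dist (f z) (P w t) ^ 2 ≤ dist z w ^ 2 + t ^ 2 := by
    intro z w t h0 h1
    refine (key w t h0 h1 (f z)).trans (le_of_eq ?_)
    rw [hff, hdd]
    field_simp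
    ring
  have u2 : ∀ z w t, 0 ≤ t → t ≤ d →
      dist (h (e z)) (P w t) ^ 2 ≤ dist z w ^ 2 + (d - t) ^ 2 := by
    intro z w t h0 h1
    refine (key w t h0 h1 (h (e z))).trans (le_of_eq ?_)
    rw [dist_comm (h (e z)) (f w), hdd, hhh, dist_comm w z]
    field_simp
    ring
  have u3 : ∀ z w s t, 0 ≤ s → s ≤ d → 0 ≤ t → t ≤ d →
      dist (P z s) (P w t) ^ 2 ≤ dist z w ^ 2 + (s - t) ^ 2 := by
    intro z w s t h0 h1 h2 h3
    rw [dist_comm (P z s)]
    have k1 := key z s h0 h1 (P w t)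
    have k2 := u1 z w t h2 h3
    have k3 := u2 z w t h2 h3
    rw [dist_comm] at k2 k3
    have k4 : 0 ≤ s / d := by positivity
    have k5 : 0 ≤ 1 - s / d := by
      rw [sub_nonneg]
      exact (div_le_one hd).2 h1
    calc dist (P w t) (P z s) ^ 2 ≤ _ := k1
      _ ≤ (1 - s / d) * (dist z w ^ 2 + t ^ 2) + s / d * (dist z w ^ 2 + (d - t) ^ 2) -
          s * (d - s) := by gcongr
      _ = dist z w ^ 2 + (s - t) ^ 2 := by
        field_simp
        ring
  -- lower bound
  have l1 : ∀ z w s t, 0 ≤ s → t ≤ d → s < t →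
      dist z w ^ 2 + (s - t) ^ 2 ≤ dist (P z s) (P w t) ^ 2 := by
    intro z w s t h0 h1 hst
    have hts : 0 < t - s := by linarith
    set L : ℝ := √(dist z w ^ 2 + (s - t) ^ 2) with hL
    have hL0 : 0 ≤ L := Real.sqrt_nonneg _
    have hL2 : L ^ 2 = dist z w ^ 2 + (s - t) ^ 2 := Real.sq_sqrt (by positivity)
    set z0 : E k := z - (s / (t - s)) • (w - z) with hz0
    set w0 : E k := w + ((d - t) / (t - s)) • (w - z) with hw0
    have d1 : dist z0 w0 = d / (t - s) * dist z w := by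
      have : z0 - w0 = -((d / (t - s)) • (w - z)) := by
        rw [hz0, hw0]
        have : d / (t - s) = s / (t - s) + 1 + (d - t) / (t - s) := by
          field_simp
          ring
        rw [this]
        module
      rw [dist_eq_norm, this, norm_neg, norm_smul, Real.norm_eq_abs,
        abs_of_nonneg (by positivity), dist_comm z w, dist_eq_norm w z]
    have d2 : dist z0 z = s / (t - s) * dist z w := by
      have : z0 - z = -((s / (t - s)) • (w - z)) := by
        rw [hz0]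
        module
      rw [dist_eq_norm, this, norm_neg, norm_smul, Real.norm_eq_abs,
        abs_of_nonneg (by positivity), dist_comm z w, dist_eq_norm w z]
    have d3 : dist w0 w = (d - t) / (t - s) * dist z w := by
      have : w0 - w = ((d - t) / (t - s)) • (w - z) := by
        rw [hw0]
        module
      rw [dist_eq_norm, this, norm_smul, Real.norm_eq_abs,
        abs_of_nonneg (div_nonneg (by linarith) hts.le), dist_comm z w, dist_eq_norm w z]
    have e1 : dist (f z0) (h (e w0)) = d / (t - s) * L := by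
      refine (pow_left_inj₀ dist_nonneg (by positivity) two_ne_zero).1 ?_
      rw [hdd, d1, mul_pow, mul_pow, hL2]
      field_simp
      ring
    have e2 : dist (f z0) (P z s) ≤ s / (t - s) * L := by
      refine (pow_le_pow_iff_left₀ dist_nonneg (by positivity) two_ne_zero).1 ?_
      refine (u1 z0 z s h0 (by linarith)).trans (le_of_eq ?_)
      rw [d2, mul_pow, mul_pow, hL2]
      field_simp
      ring
    have e3 : dist (h (e w0)) (P w t) ≤ (d - t) / (t - s) * L := by
      refine (pow_le_pow_iff_left₀ dist_nonneg (mul_nonneg (div_nonneg (by linarith) hts.le) hL0)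
        two_ne_zero).1 ?_
      refine (u2 w0 w t (by linarith) h1).trans (le_of_eq ?_)
      rw [d3, mul_pow, mul_pow, hL2]
      field_simp
      ring
    have e4 : L ≤ dist (P z s) (P w t) := by
      have h5 := dist_triangle4 (f z0) (P z s) (P w t) (h (e w0))
      rw [e1, dist_comm (P w t)] at h5
      have h6 : d / (t - s) * L = s / (t - s) * L + L + (d - t) / (t - s) * L := by
        field_simp
        ring
      linarith
    rw [← hL2]
    exact pow_le_pow_left₀ hL0 e4 2
  have l2 : ∀ z w s t, 0 ≤ s → s ≤ d → 0 ≤ t → t ≤ d → s ≠ t →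
      dist z w ^ 2 + (s - t) ^ 2 ≤ dist (P z s) (P w t) ^ 2 := by
    intro z w s t h0 h1 h2 h3 hne
    rcases lt_or_gt_of_ne hne with h4 | h4
    · exact l1 z w s t h0 h3 h4
    · have := l1 w z t s h2 h1 h4
      rw [dist_comm z w, dist_comm (P z s)]
      nlinarith
  have l3 : ∀ z w s, 0 ≤ s → s ≤ d → dist z w ≤ dist (P z s) (P w s) := by
    intro z w s h0 h1
    refine le_of_forall_pos_le_add fun ε hε => ?_
    obtain ⟨t, ht0, ht1, hts, htε⟩ : ∃ t : ℝ, 0 ≤ t ∧ t ≤ d ∧ s ≠ t ∧ |t - s| ≤ ε := by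
      rcases lt_or_eq_of_le h1 with h2 | h2
      · refine ⟨min d (s + ε), le_min hd.le (by linarith), min_le_left _ _, ?_, ?_⟩
        · exact (lt_min h2 (by linarith)).ne
        · rw [abs_of_nonneg (by rw [sub_nonneg]; exact le_min h1 (by linarith))]
          have := min_le_right d (s + ε)
          linarith
      · refine ⟨max 0 (s - ε), le_max_left _ _, max_le hd.le (by linarith), ?_, ?_⟩
        · refine (max_lt ?_ (by linarith)).ne'
          rw [h2]; exact hd
        · rw [abs_of_nonpos (by rw [sub_nonpos]; exact max_le h0 (by linarith))]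
          have := le_max_right 0 (s - ε)
          linarith
    have k1 : dist z w ≤ dist (P z s) (P w t) := by
      refine (pow_le_pow_iff_left₀ dist_nonneg dist_nonneg two_ne_zero).1 ?_
      have := l2 z w s t h0 h1 ht0 ht1 hts
      nlinarith [sq_nonneg (s - t)]
    have k2 : dist (P w t) (P w s) ≤ ε := by
      refine le_trans ?_ htε
      refine (pow_le_pow_iff_left₀ dist_nonneg (abs_nonneg _) two_ne_zero).1 ?_
      have := u3 w w t s ht0 ht1 h0 h1
      rw [dist_self] at this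
      rw [sq_abs]
      linarith
    have k3 := dist_triangle (P z s) (P w s) (P w t)
    rw [dist_comm (P w s)] at k3
    linarith
  refine ⟨P, fun z w s t h0 h1 h2 h3 => le_antisymm (u3 z w s t h0 h1 h2 h3) ?_⟩
  by_cases hst : s = t
  · subst hst
    rw [sub_self]
    have := pow_le_pow_left₀ dist_nonneg (l3 z w s h0 h1) 2
    linarith
  · exact l2 z w s t h0 h1 h2 h3 hst

end Pool.Agent.Y155.HB
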