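import Pool.Agent.Y214.HB.Stm
import Pool.Agent.H298R2.Kuyk4
import Pool.Agent.H880R2.Hilb.E1

/-!
# Project HB: Hilbert irreducibility for a polynomial which need not be monic
-/

set_option autoImplicit false

namespace Pool.Agent.Y155.HB

open Polynomial

section field

variable {F : Type} [Field F]

theorem irr_scale1 {p : F[X]} {r : F} (h : Irreducible (p.scaleRoots r)) :
    Irreducible p := by
  rw [irreducible_iff] at h ⊢
  obtain ⟨h1, h2⟩ := h
  refine ⟨fun hu => h1 ?_, fun a b hab => ?_⟩
  · rw [isUnit_iff_degree_eq_zero] at hu ⊢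
    rw [degree_scaleRoots, hu]
  · have h3 : p.scaleRoots r = a.scaleRoots r * b.scaleRoots r := by
      rw [hab, mul_scaleRoots_of_noZeroDivisors]
    rcases h2 h3 with h4 | h4
    · left
      rw [isUnit_iff_degree_eq_zero] at h4 ⊢
      rwa [degree_scaleRoots] at h4
    · right
      rw [isUnit_iff_degree_eq_zero] at h4 ⊢
      rwa [degree_scaleRoots] at h4

theorem irr_scale {p : F[X]} {r : F} (hr : r ≠ 0) :
    Irreducible (p.scaleRoots r) ↔ Irreducible p := by
  refine ⟨irr_scale1, fun h => ?_⟩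
  apply irr_scale1 (r := r⁻¹)
  rw [← scaleRoots_mul, mul_inv_cancel₀ hr, scaleRoots_one]
  exact h

theorem irr_norm {p : F[X]} (hp : p ≠ 0) :
    Irreducible p.integralNormalization ↔ Irreducible p := by
  have hl : p.leadingCoeff ≠ 0 := leadingCoeff_ne_zero.2 hp
  have h1 := irr_scale (p := p) hl
  rw [← integralNormalization_mul_C_leadingCoeff] at h1
  have hu : IsUnit (C p.leadingCoeff) := isUnit_C.2 hl.isUnit
  exact (irreducible_mul_isUnit hu).symm.trans h1

end field

open Pool.Agent.Y214.HB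

/-- **Hilbert irreducibility.** -/
theorem t_SPEC : S_SPEC := by
  intro n P hP hirr
  have hP0 : P ≠ 0 := by
    rintro rfl
    rw [natDegree_zero] at hP
    omega
  obtain ⟨φ, hφ⟩ : ∃ φ : MvPolynomial (Fin (n + 1)) ℤ →+* MvPolynomial (Fin (n + 1)) ℚ,
    φ = MvPolynomial.map (Int.castRingHom ℚ) := ⟨_, rfl⟩
  have hφi : Function.Injective φ := by
    rw [hφ]
    exact MvPolynomial.map_injective _ Int.cast_injective
  have hl0 : P.leadingCoeff ≠ 0 := leadingCoeff_ne_zero.2 hP0
  have hφl : φ P.leadingCoeff ≠ 0 := by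
    rw [Ne, map_eq_zero_iff φ hφi]
    exact hl0
  have hP' : P.map φ ≠ 0 := by
    rw [Ne, Polynomial.map_eq_zero_iff hφi]
    exact hP0
  have hlead : (P.map φ).leadingCoeff = φ P.leadingCoeff :=
    leadingCoeff_map_of_leadingCoeff_ne_zero _ hφl
  have : CharZero (FractionRing (MvPolynomial (Fin (n + 1)) ℤ)) :=
    charZero_of_injective_algebraMap
      (IsFractionRing.injective (MvPolynomial (Fin (n + 1)) ℤ)
        (FractionRing (MvPolynomial (Fin (n + 1)) ℤ)))
  obtain ⟨ψ, hψ⟩ : ∃ ψ : MvPolynomial (Fin (n + 1)) ℚ →+*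
      FractionRing (MvPolynomial (Fin (n + 1)) ℤ), ψ.comp φ =
        algebraMap (MvPolynomial (Fin (n + 1)) ℤ)
          (FractionRing (MvPolynomial (Fin (n + 1)) ℤ)) := by
    refine ⟨MvPolynomial.eval₂Hom
      (algebraMap ℚ (FractionRing (MvPolynomial (Fin (n + 1)) ℤ)))
      (fun i => algebraMap (MvPolynomial (Fin (n + 1)) ℤ)
        (FractionRing (MvPolynomial (Fin (n + 1)) ℤ)) (MvPolynomial.X i)), ?_⟩
    apply MvPolynomial.ringHom_ext
    · intro r
      rw [hφ]
      simp
    · intro i
      rw [hφ]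
      simp
  have hψl : ψ (φ P.leadingCoeff) ≠ 0 := by
    rw [← RingHom.comp_apply, hψ]
    rw [Ne, map_eq_zero_iff _ (IsFractionRing.injective (MvPolynomial (Fin (n + 1)) ℤ)
        (FractionRing (MvPolynomial (Fin (n + 1)) ℤ)))]
    exact hl0
  have hK : (P.map φ).map ψ = toK P := by
    rw [Polynomial.map_map, hψ, toK]
  have hK0 : toK P ≠ 0 := hirr.ne_zero
  have hmon : (P.map φ).integralNormalization.Monic := monic_integralNormalization hP'
  have hi : Irreducible (P.map φ).integralNormalization := by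
    apply hmon.irreducible_of_irreducible_map ψ
    rw [← integralNormalization_map ψ (P.map φ) (by rw [hlead]; exact hψl), hK, irr_norm hK0]
    exact hirr
  obtain ⟨a, ha1, ha2⟩ := Pool.Agent.H298R2.Kuyk.hilbMv Pool.Agent.H880R2.Hilb.taskE1
    (P.map φ).integralNormalization hmon hi (φ P.leadingCoeff * MvPolynomial.X 0)
    (mul_ne_zero hφl (MvPolynomial.X_ne_zero 0))
  rw [map_mul, MvPolynomial.eval_X] at ha1
  have hev : (MvPolynomial.eval a).comp φ = evQ a := by
    rw [hφ, evQ]
    apply MvPolynomial.ringHom_ext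
    · intro r
      simp
    · intro i
      simp
  have hev' : MvPolynomial.eval a (φ P.leadingCoeff) = evQ a P.leadingCoeff := by
    rw [← hev, RingHom.comp_apply]
  have ha3 : MvPolynomial.eval a (φ P.leadingCoeff) ≠ 0 := left_ne_zero_of_mul ha1
  refine ⟨a, right_ne_zero_of_mul ha1, by rw [← hev']; exact ha3, ?_⟩
  have hmap : (P.map φ).map (MvPolynomial.eval a) = P.map (evQ a) := by
    rw [Polynomial.map_map, hev]
  rw [← integralNormalization_map (MvPolynomial.eval a) (P.map φ) (by rw [hlead]; exact ha3),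
    hmap] at ha2
  refine (irr_norm ?_).1 ha2
  intro h0
  rw [h0, integralNormalization_zero] at ha2
  exact ha2.ne_zero rfl

end Pool.Agent.Y155.HB
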